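import Pool.Agent.H31.TH

open Pool.Agent.H31.TS

theorem Pool.Agent.Results.MP_3bb15c_gt.Main.result :
    ∃ (X : Type) (_ : SemilatticeInf X) (_ : TopologicalSpace X),
      ContinuousInf X ∧ T2Space X ∧ RegularSpace X ∧ SComplete X ∧
      ∃ (Y : Type) (_ : Semigroup Y) (_ : TopologicalSpace Y), ContinuousMul Y ∧ T2Space Y ∧
        ∃ h : X → Y, Continuous h ∧ (∀ a b, h (a ⊓ b) = h a * h b) ∧
          ¬ IsClosed (Set.range h) :=
  ⟨Zᵒᵈ, inferInstance, inferInstance, inferInstance, inferInstanceAs (T2Space Z),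
    inferInstanceAs (RegularSpace Z), sC, Y, { mul := (· ⊔ ·), mul_assoc := sup_assoc },
    inferInstance, @ContinuousMul.mk _ _ ⟨(· ⊔ ·)⟩ continuous_sup, inferInstance, jz, contZ,
    fun _ _ => rfl, notClosed⟩
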